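import Mathlib

/-!
Saddle point lemma for log-concavity of coefficients (helper27, [EV] (3)).
-/

namespace Pool.Agent.Helper27.EV

open MeasureTheory Real Set intervalIntegral

/-- `x ^ 5 * exp (-a x^2)` has integral at most `1 / a^3` on `[0, b]`. -/
theorem int_five (a b : ℝ) (ha : 0 < a) :
    ∫ x in (0 : ℝ)..b, x ^ 5 * exp (-(a * x ^ 2)) ≤ 1 / a ^ 3 := by
  have hder : ∀ x ∈ uIcc (0 : ℝ) b, HasDerivAt
      (fun x : ℝ => -(exp (-(a * x ^ 2)) * (x ^ 4 / (2 * a) + x ^ 2 / a ^ 2 + 1 / a ^ 3)))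
      (x ^ 5 * exp (-(a * x ^ 2))) x := by
    intro x _
    have h1 : HasDerivAt (fun x : ℝ => -(a * x ^ 2)) (-(a * (2 * x))) x := by
      have h := (hasDerivAt_pow 2 x).const_mul a
      have h' := h.neg
      refine h'.congr_deriv ?_
      norm_num
    have h2 := h1.exp
    have h3 : HasDerivAt (fun x : ℝ => x ^ 4 / (2 * a) + x ^ 2 / a ^ 2 + 1 / a ^ 3)
        (4 * x ^ 3 / (2 * a) + 2 * x / a ^ 2) x := by
      have h4 := (hasDerivAt_pow 4 x).div_const (2 * a)
      have h5 := (hasDerivAt_pow 2 x).div_const (a ^ 2)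
      have h6 := (h4.add h5).add_const (1 / a ^ 3)
      refine h6.congr_deriv ?_
      norm_num
    have h7 := (h2.mul h3).neg
    refine h7.congr_deriv ?_
    field_simp
    ring
  have hint : IntervalIntegrable (fun x : ℝ => x ^ 5 * exp (-(a * x ^ 2))) volume 0 b := by
    apply Continuous.intervalIntegrable
    fun_prop
  rw [integral_eq_sub_of_hasDerivAt hder hint]
  have e1 : (0 : ℝ) ≤ exp (-(a * b ^ 2)) * (b ^ 4 / (2 * a) + b ^ 2 / a ^ 2 + 1 / a ^ 3) := by
    positivity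
  have e2 : exp (-(a * (0 : ℝ) ^ 2)) * ((0 : ℝ) ^ 4 / (2 * a) + (0 : ℝ) ^ 2 / a ^ 2 + 1 / a ^ 3)
      = 1 / a ^ 3 := by simp
  rw [e2]
  linarith

/-- lower bound for the main term. -/
theorem int_main (s : ℝ) (hs : 1 ≤ s) :
    1 / (6 * s ^ 3) ≤ ∫ x in (0 : ℝ)..π, x ^ 2 * exp (-(s ^ 2 * x ^ 2 / 2)) := by
  have hs0 : 0 < s := by linarith
  have hle : 1 / s ≤ π := by
    have h1 : 1 / s ≤ 1 := by
      rw [div_le_one hs0]; exact hs
    have := Real.pi_gt_three
    linarith
  have h0 : (0 : ℝ) ≤ 1 / s := by positivity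
  have hcont : Continuous (fun x : ℝ => x ^ 2 * exp (-(s ^ 2 * x ^ 2 / 2))) := by fun_prop
  have hmono : ∫ x in (0 : ℝ)..(1 / s), x ^ 2 * exp (-(s ^ 2 * x ^ 2 / 2)) ≤
      ∫ x in (0 : ℝ)..π, x ^ 2 * exp (-(s ^ 2 * x ^ 2 / 2)) := by
    have hsplit := integral_add_adjacent_intervals
      (hcont.intervalIntegrable (μ := volume) 0 (1 / s)) (hcont.intervalIntegrable (1 / s) π)
    have hnn : 0 ≤ ∫ x in (1 / s)..π, x ^ 2 * exp (-(s ^ 2 * x ^ 2 / 2)) := by
      apply intervalIntegral.integral_nonneg hle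
      intro u _
      positivity
    linarith
  refine le_trans ?_ hmono
  have hlow : ∫ x in (0 : ℝ)..(1 / s), x ^ 2 / 2 ≤
      ∫ x in (0 : ℝ)..(1 / s), x ^ 2 * exp (-(s ^ 2 * x ^ 2 / 2)) := by
    apply intervalIntegral.integral_mono_on h0
    · apply Continuous.intervalIntegrable; fun_prop
    · exact hcont.intervalIntegrable _ _
    · intro x hx
      have hx0 : 0 ≤ x := hx.1
      have hsx : s * x ≤ 1 := by
        have := hx.2
        rw [le_div_iff₀ hs0] at this
        linarith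
      have h1 : s ^ 2 * x ^ 2 ≤ 1 := by
        have : (s * x) ^ 2 ≤ 1 := by
          have h0 : 0 ≤ s * x := by positivity
          nlinarith
        nlinarith [this]
      have h2 := Real.add_one_le_exp (-(s ^ 2 * x ^ 2 / 2))
      have h3 : (1 : ℝ) / 2 ≤ exp (-(s ^ 2 * x ^ 2 / 2)) := by linarith
      have h4 : 0 ≤ x ^ 2 := by positivity
      nlinarith
  refine le_trans ?_ hlow
  rw [intervalIntegral.integral_div, integral_pow]
  apply le_of_eq
  have hs3 : s ≠ 0 := hs0.ne'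
  rw [div_pow, one_pow, zero_pow (by norm_num)]
  norm_num
  field_simp
  norm_num

/-! Half range saddle point lemma. -/
set_option maxHeartbeats 4000000 in
theorem half (C c d : ℝ) (hC : 0 < C) (hc : 0 < c) (hd : 0 < d) :
    ∃ V0 : ℝ, ∀ V, V0 ≤ V → ∀ Ψ : ℝ → ℂ, Continuous Ψ →
      (∀ x, 0 ≤ x → x ≤ d → ∃ E : ℂ, Ψ x = Complex.exp (((-(V * x ^ 2 / 2) : ℝ) : ℂ) + E) ∧
        ‖E‖ ≤ C * V * x ^ 3) →
      (∀ x, 0 ≤ x → x ≤ π → ‖Ψ x‖ ≤ C * exp (-(c * V * x ^ 2))) →
      0 < ∫ x in (0 : ℝ)..π, (Ψ x).re * (1 - cos x) := by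
  set δ : ℝ := min d (1 / (4 * C)) with hδ
  have hδ0 : 0 < δ := by
    rw [hδ]; apply lt_min hd; positivity
  have hδd : δ ≤ d := min_le_left _ _
  have hδC : δ ≤ 1 / (4 * C) := min_le_right _ _
  have hδC' : C * δ ≤ 1 / 4 := by
    have := mul_le_mul_of_nonneg_left hδC hC.le
    have e : C * (1 / (4 * C)) = 1 / 4 := by field_simp
    linarith
  set K2 : ℝ := 2 * C * (2 / (c * δ ^ 2) ^ 2) + 2 * (2 / (δ ^ 2 / 2) ^ 2) with hK2
  have hK2p : 0 < K2 := by rw [hK2]; positivity
  set K : ℝ := 32 * C + π * K2 with hK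
  have hKp : 0 < K := by
    have := Real.pi_pos
    rw [hK]; positivity
  set S0 : ℝ := 3 * π ^ 2 * K + 1 with hS0
  have hS0p : 1 ≤ S0 := by
    have := Real.pi_pos
    have : 0 < 3 * π ^ 2 * K := by positivity
    linarith
  refine ⟨S0 ^ 2, ?_⟩
  intro V hV Ψ hΨc hloc htail
  set s : ℝ := Real.sqrt V with hs
  have hV0 : 0 < V := lt_of_lt_of_le (by positivity) hV
  have hsV : s ^ 2 = V := Real.sq_sqrt hV0.le
  have hsS : S0 ≤ s := by
    rw [hs]
    apply Real.le_sqrt_of_sq_le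
    exact hV
  have hs1 : 1 ≤ s := le_trans hS0p hsS
  have hs0 : 0 < s := by linarith
  have hpi := Real.pi_pos
  -- pointwise lower bound
  set K1 : ℝ := 2 * C * exp (-(c * V * δ ^ 2)) + 2 * exp (-(V * δ ^ 2 / 2)) with hK1
  have hpt : ∀ x ∈ Icc (0 : ℝ) π,
      (2 / π ^ 2) * (x ^ 2 * exp (-(s ^ 2 * x ^ 2 / 2))) -
        (C / 2 * V) * (x ^ 5 * exp (-(V / 4 * x ^ 2))) - K1 ≤ (Ψ x).re * (1 - cos x) := by
    intro x hx
    have hx0 : 0 ≤ x := hx.1
    have hxpi : x ≤ π := hx.2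
    have hcos_up : cos x ≤ 1 - 2 / π ^ 2 * x ^ 2 := by
      apply Real.cos_le_one_sub_mul_cos_sq
      rw [abs_of_nonneg hx0]; exact hxpi
    have hcos_lo : 1 - x ^ 2 / 2 ≤ cos x := Real.one_sub_sq_div_two_le_cos
    have hcos1 : -1 ≤ cos x := Real.neg_one_le_cos x
    have hK1p : 0 ≤ K1 := by rw [hK1]; positivity
    rw [hsV]
    rcases le_or_gt x δ with hxδ | hxδ
    · obtain ⟨E, hE, hEn⟩ := hloc x hx0 (le_trans hxδ hδd)
      have hE4 : ‖E‖ ≤ V * x ^ 2 / 4 := by
        calc ‖E‖ ≤ C * V * x ^ 3 := hEn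
          _ = (C * x) * (V * x ^ 2) := by ring
          _ ≤ (1 / 4) * (V * x ^ 2) := by
              apply mul_le_mul_of_nonneg_right _ (by positivity)
              have : C * x ≤ C * δ := mul_le_mul_of_nonneg_left hxδ hC.le
              linarith
          _ = V * x ^ 2 / 4 := by ring
      -- Re exp E >= 1 - ‖E‖ exp ‖E‖
      have hexpE : 1 - ‖E‖ * exp ‖E‖ ≤ (Complex.exp E).re := by
        have h1 : ‖Complex.exp E - 1‖ ≤ ‖E‖ * exp ‖E‖ := by
          have := Complex.norm_exp_sub_sum_le_norm_mul_exp E 1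
          simpa using this
        have h2 : |(Complex.exp E - 1).re| ≤ ‖Complex.exp E - 1‖ := Complex.abs_re_le_norm _
        have h3 : (Complex.exp E - 1).re = (Complex.exp E).re - 1 := by simp
        have h4 := (abs_le.mp (le_trans h2 h1)).1
        rw [h3] at h4
        linarith
      have hre : (Ψ x).re = exp (-(V * x ^ 2 / 2)) * (Complex.exp E).re := by
        rw [hE, Complex.exp_add, ← Complex.ofReal_exp, Complex.re_ofReal_mul]
      have hlow : exp (-(V * x ^ 2 / 2)) - C * V * x ^ 3 * exp (-(V / 4 * x ^ 2)) ≤ (Ψ x).re := by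
        rw [hre]
        have h5 : ‖E‖ * exp ‖E‖ ≤ C * V * x ^ 3 * exp (V * x ^ 2 / 4) := by
          apply mul_le_mul hEn (Real.exp_le_exp.mpr hE4) (Real.exp_pos _).le
          positivity
        have h6 : exp (-(V * x ^ 2 / 2)) * exp (V * x ^ 2 / 4) = exp (-(V / 4 * x ^ 2)) := by
          rw [← Real.exp_add]; congr 1; ring
        have h7 : exp (-(V * x ^ 2 / 2)) * (1 - C * V * x ^ 3 * exp (V * x ^ 2 / 4)) ≤
            exp (-(V * x ^ 2 / 2)) * (Complex.exp E).re := by
          apply mul_le_mul_of_nonneg_left _ (Real.exp_pos _).le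
          linarith
        calc exp (-(V * x ^ 2 / 2)) - C * V * x ^ 3 * exp (-(V / 4 * x ^ 2))
            = exp (-(V * x ^ 2 / 2)) * (1 - C * V * x ^ 3 * exp (V * x ^ 2 / 4)) := by
              rw [← h6]; ring
          _ ≤ _ := h7
      -- multiply by 1 - cos x
      have hA : (2 / π ^ 2) * (x ^ 2 * exp (-(V * x ^ 2 / 2))) ≤
          exp (-(V * x ^ 2 / 2)) * (1 - cos x) := by
        have : 2 / π ^ 2 * x ^ 2 ≤ 1 - cos x := by linarith
        calc (2 / π ^ 2) * (x ^ 2 * exp (-(V * x ^ 2 / 2)))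
            = exp (-(V * x ^ 2 / 2)) * (2 / π ^ 2 * x ^ 2) := by ring
          _ ≤ _ := mul_le_mul_of_nonneg_left this (Real.exp_pos _).le
      have hB : C * V * x ^ 3 * exp (-(V / 4 * x ^ 2)) * (1 - cos x) ≤
          (C / 2 * V) * (x ^ 5 * exp (-(V / 4 * x ^ 2))) := by
        have h8 : 1 - cos x ≤ x ^ 2 / 2 := by linarith
        calc C * V * x ^ 3 * exp (-(V / 4 * x ^ 2)) * (1 - cos x)
            ≤ C * V * x ^ 3 * exp (-(V / 4 * x ^ 2)) * (x ^ 2 / 2) := by
              apply mul_le_mul_of_nonneg_left h8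
              positivity
          _ = _ := by ring
      have h9 : 0 ≤ 1 - cos x := by
        have := Real.cos_le_one x
        linarith
      have h10 := mul_le_mul_of_nonneg_right hlow h9
      have h11 : (exp (-(V * x ^ 2 / 2)) - C * V * x ^ 3 * exp (-(V / 4 * x ^ 2))) * (1 - cos x) =
          exp (-(V * x ^ 2 / 2)) * (1 - cos x) -
            C * V * x ^ 3 * exp (-(V / 4 * x ^ 2)) * (1 - cos x) := by ring
      rw [h11] at h10
      linarith
    · -- tail
      have hT := htail x hx0 hxpi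
      have hxsq : δ ^ 2 ≤ x ^ 2 := by
        have := hδ0.le
        nlinarith
      have h1 : -(Ψ x).re ≤ C * exp (-(c * V * δ ^ 2)) := by
        have h2 : |(Ψ x).re| ≤ ‖Ψ x‖ := Complex.abs_re_le_norm _
        have h3 : exp (-(c * V * x ^ 2)) ≤ exp (-(c * V * δ ^ 2)) := by
          apply Real.exp_le_exp.mpr
          have : c * V * δ ^ 2 ≤ c * V * x ^ 2 :=
            mul_le_mul_of_nonneg_left hxsq (by positivity)
          linarith
        have h4 : C * exp (-(c * V * x ^ 2)) ≤ C * exp (-(c * V * δ ^ 2)) :=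
          mul_le_mul_of_nonneg_left h3 hC.le
        have := neg_abs_le (Ψ x).re
        linarith
      have h5 : 0 ≤ 1 - cos x := by
        have := Real.cos_le_one x
        linarith
      have h6 : 1 - cos x ≤ 2 := by linarith
      have h7 : -((Ψ x).re * (1 - cos x)) ≤ 2 * C * exp (-(c * V * δ ^ 2)) := by
        have h8 : -(Ψ x).re * (1 - cos x) ≤ C * exp (-(c * V * δ ^ 2)) * (1 - cos x) :=
          mul_le_mul_of_nonneg_right h1 h5
        have h9 : C * exp (-(c * V * δ ^ 2)) * (1 - cos x) ≤ C * exp (-(c * V * δ ^ 2)) * 2 :=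
          mul_le_mul_of_nonneg_left h6 (by positivity)
        nlinarith
      have h10 : (2 / π ^ 2) * (x ^ 2 * exp (-(V * x ^ 2 / 2))) ≤ 2 * exp (-(V * δ ^ 2 / 2)) := by
        have h11 : exp (-(V * x ^ 2 / 2)) ≤ exp (-(V * δ ^ 2 / 2)) := by
          apply Real.exp_le_exp.mpr
          have : V * δ ^ 2 ≤ V * x ^ 2 := mul_le_mul_of_nonneg_left hxsq hV0.le
          linarith
        have h12 : x ^ 2 ≤ π ^ 2 := by nlinarith
        have h13 : 2 / π ^ 2 * x ^ 2 ≤ 2 := by
          rw [div_mul_eq_mul_div, div_le_iff₀ (by positivity)]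
          nlinarith
        calc (2 / π ^ 2) * (x ^ 2 * exp (-(V * x ^ 2 / 2)))
            = (2 / π ^ 2 * x ^ 2) * exp (-(V * x ^ 2 / 2)) := by ring
          _ ≤ 2 * exp (-(V * δ ^ 2 / 2)) := by
              apply mul_le_mul h13 h11 (Real.exp_pos _).le (by norm_num)
      have h14 : 0 ≤ (C / 2 * V) * (x ^ 5 * exp (-(V / 4 * x ^ 2))) := by positivity
      rw [hK1]
      linarith
  -- integrate
  have hint1 : IntervalIntegrable (fun x : ℝ => (2 / π ^ 2) * (x ^ 2 * exp (-(s ^ 2 * x ^ 2 / 2))))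
      volume 0 π := by
    apply Continuous.intervalIntegrable; fun_prop
  have hint2 : IntervalIntegrable (fun x : ℝ => (C / 2 * V) * (x ^ 5 * exp (-(V / 4 * x ^ 2))))
      volume 0 π := by
    apply Continuous.intervalIntegrable; fun_prop
  have hint3 : IntervalIntegrable (fun _ : ℝ => K1) volume 0 π := by
    apply Continuous.intervalIntegrable; fun_prop
  have hmono : (∫ x in (0 : ℝ)..π, ((2 / π ^ 2) * (x ^ 2 * exp (-(s ^ 2 * x ^ 2 / 2))) -
        (C / 2 * V) * (x ^ 5 * exp (-(V / 4 * x ^ 2))) - K1)) ≤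
      ∫ x in (0 : ℝ)..π, (Ψ x).re * (1 - cos x) := by
    apply intervalIntegral.integral_mono_on hpi.le
    · exact (hint1.sub hint2).sub hint3
    · apply Continuous.intervalIntegrable
      exact (Complex.continuous_re.comp hΨc).mul (continuous_const.sub Real.continuous_cos)
    · exact hpt
  rw [intervalIntegral.integral_sub (hint1.sub hint2) hint3,
    intervalIntegral.integral_sub hint1 hint2] at hmono
  rw [intervalIntegral.integral_const_mul, intervalIntegral.integral_const_mul,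
    intervalIntegral.integral_const] at hmono
  have hm1 := int_main s hs1
  have hm2 := int_five (V / 4) π (by positivity)
  simp only [sub_zero, smul_eq_mul] at hmono
  have hK1b : K1 ≤ K2 / V ^ 2 := by
    have key : ∀ y : ℝ, 0 < y → exp (-y) ≤ 2 / y ^ 2 := by
      intro y hy
      have h1 := Real.quadratic_le_exp_of_nonneg hy.le
      have h2 : y ^ 2 / 2 ≤ exp y := by linarith
      rw [Real.exp_neg, inv_eq_one_div]
      rw [div_le_div_iff₀ (Real.exp_pos _) (by positivity)]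
      linarith
    have h1 := key (c * V * δ ^ 2) (by positivity)
    have h2 := key (V * δ ^ 2 / 2) (by positivity)
    have e : K2 / V ^ 2 = 2 * C * (2 / (c * V * δ ^ 2) ^ 2) + 2 * (2 / (V * δ ^ 2 / 2) ^ 2) := by
      rw [hK2]
      field_simp
    rw [e, hK1]
    have h3 := mul_le_mul_of_nonneg_left h1 (by positivity : (0 : ℝ) ≤ 2 * C)
    have h4 := mul_le_mul_of_nonneg_left h2 (by positivity : (0 : ℝ) ≤ 2)
    linarith
  have hmain : 0 < 2 / π ^ 2 * (1 / (6 * s ^ 3)) - C / 2 * V * (1 / (V / 4) ^ 3) - π * (K2 / V ^ 2) := by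
    have e1 : C / 2 * V * (1 / (V / 4) ^ 3) = 32 * C / s ^ 4 := by
      rw [← hsV]; field_simp; ring
    have e2 : π * (K2 / V ^ 2) = π * K2 / s ^ 4 := by
      rw [← hsV]; field_simp
    have e3 : 2 / π ^ 2 * (1 / (6 * s ^ 3)) = (s / (3 * π ^ 2)) / s ^ 4 := by
      field_simp; ring
    rw [e1, e2, e3]
    have e4 : s / (3 * π ^ 2) / s ^ 4 - 32 * C / s ^ 4 - π * K2 / s ^ 4 =
        (s / (3 * π ^ 2) - K) / s ^ 4 := by
      rw [hK]; ring
    rw [e4]
    apply div_pos _ (by positivity)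
    have : K < s / (3 * π ^ 2) := by
      rw [lt_div_iff₀ (by positivity)]
      nlinarith
    linarith
  have h1 := mul_le_mul_of_nonneg_left hm1 (by positivity : (0 : ℝ) ≤ 2 / π ^ 2)
  have h2 := mul_le_mul_of_nonneg_left hm2 (by positivity : (0 : ℝ) ≤ C / 2 * V)
  have h3 := mul_le_mul_of_nonneg_left hK1b hpi.le
  linarith

/-- Full range saddle point lemma. -/
theorem saddle (C c d : ℝ) (hC : 0 < C) (hc : 0 < c) (hd : 0 < d) :
    ∃ V0 : ℝ, ∀ V, V0 ≤ V → ∀ Ψ : ℝ → ℂ, Continuous Ψ →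
      (∀ x, |x| ≤ d → ∃ E : ℂ, Ψ x = Complex.exp (((-(V * x ^ 2 / 2) : ℝ) : ℂ) + E) ∧
        ‖E‖ ≤ C * V * |x| ^ 3) →
      (∀ x, |x| ≤ π → ‖Ψ x‖ ≤ C * exp (-(c * V * x ^ 2))) →
      0 < ∫ x in (-π)..π, (Ψ x).re * (1 - cos x) := by
  obtain ⟨V0, hV0⟩ := half C c d hC hc hd
  refine ⟨V0, ?_⟩
  intro V hV Ψ hΨ hloc htail
  have h1 : 0 < ∫ x in (0 : ℝ)..π, (Ψ x).re * (1 - cos x) := by
    apply hV0 V hV Ψ hΨ
    · intro x hx0 hxd
      have := hloc x (by rwa [abs_of_nonneg hx0])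
      rwa [abs_of_nonneg hx0] at this
    · intro x hx0 hxpi
      exact htail x (by rwa [abs_of_nonneg hx0])
  have h2 : 0 < ∫ x in (0 : ℝ)..π, (Ψ (-x)).re * (1 - cos x) := by
    apply hV0 V hV (fun x => Ψ (-x)) (hΨ.comp continuous_neg)
    · intro x hx0 hxd
      have := hloc (-x) (by rwa [abs_neg, abs_of_nonneg hx0])
      rw [abs_neg, abs_of_nonneg hx0] at this
      simpa using this
    · intro x hx0 hxpi
      have := htail (-x) (by rwa [abs_neg, abs_of_nonneg hx0])
      simpa using this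
  have h3 : ∫ x in (-π)..0, (Ψ x).re * (1 - cos x) = ∫ x in (0 : ℝ)..π, (Ψ (-x)).re * (1 - cos x) := by
    have := intervalIntegral.integral_comp_neg (a := 0) (b := π)
      (fun x : ℝ => (Ψ x).re * (1 - cos x))
    simp only [Real.cos_neg, neg_zero] at this
    exact this.symm
  have hc : Continuous (fun x : ℝ => (Ψ x).re * (1 - cos x)) :=
    (Complex.continuous_re.comp hΨ).mul (continuous_const.sub Real.continuous_cos)
  have h4 := integral_add_adjacent_intervals
    (hc.intervalIntegrable (μ := volume) (-π) 0) (hc.intervalIntegrable 0 π)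
  rw [← h4, h3]
  linarith

/-! ### Fourier coefficients of a polynomial on a circle -/

theorem int_cos (m : ℤ) : ∫ x in (-π)..π, cos (m * x) = if m = 0 then 2 * π else 0 := by
  split_ifs with h
  · subst h
    simp
    ring
  · have hm : (m : ℝ) ≠ 0 := by exact_mod_cast h
    rw [intervalIntegral.integral_comp_mul_left (fun x => cos x) hm, integral_cos]
    rw [show (m : ℝ) * (-π) = -(m * π) by ring, Real.sin_neg, Real.sin_int_mul_pi]
    simp

theorem int_cos_one_sub (m : ℤ) : ∫ x in (-π)..π, cos (m * x) * (1 - cos x) =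
    (if m = 0 then 2 * π else 0) - ((if m + 1 = 0 then 2 * π else 0) +
      (if m - 1 = 0 then 2 * π else 0)) / 2 := by
  have h1 : ∀ x : ℝ, cos (m * x) * (1 - cos x) =
      cos (m * x) - (cos (((m + 1 : ℤ) : ℝ) * x) + cos (((m - 1 : ℤ) : ℝ) * x)) / 2 := by
    intro x
    have e1 : ((m + 1 : ℤ) : ℝ) * x = m * x + x := by push_cast; ring
    have e2 : ((m - 1 : ℤ) : ℝ) * x = m * x - x := by push_cast; ring
    rw [e1, e2, Real.cos_add, Real.cos_sub]
    ring
  simp_rw [h1]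
  have c1 : ∀ n : ℤ, IntervalIntegrable (fun x : ℝ => cos (n * x)) volume (-π) π := by
    intro n
    apply Continuous.intervalIntegrable
    fun_prop
  rw [intervalIntegral.integral_sub (c1 m) (((c1 (m + 1)).add (c1 (m - 1))).div_const 2),
    intervalIntegral.integral_div, intervalIntegral.integral_add (c1 (m + 1)) (c1 (m - 1)),
    int_cos, int_cos, int_cos]

end Pool.Agent.Helper27.EV
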